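import Pool.Agent.H.MP_0c4bbf_an.B
namespace Pool.Agent.H.MP_922b93_an
open Filter Topology Complex Metric Finset

lemma gsum (s : Finset ℤ) {u : ℝ} {j0 : ℤ} (h : |u - j0| ≤ 1 / 2) :
    ∑ j ∈ s.erase j0, Real.exp (-(16 * (u - j) ^ 2)) ≤ 1 / 20 := by
  have g := (hasSum_geometric_of_lt_one (r := 1 / 50) (by norm_num) (by norm_num)).mul_right (1 / 50)
  simp only [← pow_succ] at g
  have h1 := (Equiv.subRight j0).hasSum_iff.2 (HasSum.of_add_one_of_neg_add_one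
    (f := fun n : ℤ => (1 / 50 : ℝ) ^ n.natAbs) g g)
  have h2 := sum_le_hasSum (insert j0 (s.erase j0)) (fun _ _ => by simp) h1
  rw [sum_insert (notMem_erase _ _)] at h2
  simp only [Function.comp, Equiv.subRight_apply, sub_self, Int.natAbs_zero, pow_zero] at h2
  refine (sum_le_sum fun j hj => ?_).trans (le_trans (b := ∑ j ∈ s.erase j0,
    (1 / 50 : ℝ) ^ (j - j0).natAbs) le_rfl (by norm_num at h2 ⊢; linarith))
  have h3 : (1 : ℝ) ≤ (j - j0).natAbs := by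
    exact_mod_cast Int.natAbs_pos.2 (sub_ne_zero.2 (ne_of_mem_erase hj))
  have h4 : ((j - j0).natAbs : ℝ) = |(j : ℝ) - j0| := by
    rw [Nat.cast_natAbs]; push_cast; rfl
  have h5 := abs_sub_le (j : ℝ) u j0
  have h6 : Real.exp (-4) ≤ 1 / 50 := by
    rw [Real.exp_neg, one_div]
    refine inv_anti₀ (by norm_num) ?_
    have := pow_le_pow_left₀ (by norm_num) Real.exp_one_gt_d9.le 4
    rw [← Real.exp_nat_mul] at this
    norm_num at this ⊢; linarith
  refine le_trans ?_ (pow_le_pow_left₀ (Real.exp_pos _).le h6 _)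
  rw [← Real.exp_nat_mul, Real.exp_le_exp, ← sq_abs, abs_sub_comm]
  nlinarith [abs_nonneg ((j : ℝ) - u)]

noncomputable def V (s : Finset ℤ) (c : ℝ) (q : ℂ × ℂ) : ℂ :=
  (∑ j ∈ s, cexp (-q.1 + 8 * q.2 ^ 2 - 32 * I * (j + c : ℝ) * q.2 - (16 * (j + c) ^ 2 : ℝ))) / 2

noncomputable def d (q : ℂ × ℂ) : ℝ := q.1.re - 8 * ‖q.2‖ ^ 2

lemma V_le (s : Finset ℤ) (c : ℝ) (q : ℂ × ℂ) : ‖V s c q‖ ≤ Real.exp (-d q) ∧
    ∀ j0 ∈ s, |q.2.im - c - j0| ≤ 3 / 10 → Real.exp (-d q) / 20 ≤ ‖V s c q‖ := by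
  have h1 : ∀ j : ℤ, ‖cexp (-q.1 + 8 * q.2 ^ 2 - 32 * I * (j + c : ℝ) * q.2 - (16 * (j + c) ^ 2 : ℝ))‖ =
      Real.exp (-d q) * Real.exp (-(16 * (q.2.im - c - j) ^ 2)) := fun j => by
    rw [Complex.norm_exp, ← Real.exp_add, d, Complex.sq_norm, normSq_apply, sub_re, ofReal_re]
    simp [sq]; ring
  have h0 := Real.exp_pos (-d q)
  have h2 := fun (j0 : ℤ) (h : |q.2.im - c - j0| ≤ 1 / 2) => (norm_sum_le_of_le (s.erase j0)
    fun j _ => (h1 j).le).trans ((mul_sum _ _ _).symm.trans_le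
      (mul_le_mul_of_nonneg_left (gsum s h) h0.le))
  rw [V, norm_div, Complex.norm_two]
  refine ⟨?_, fun j0 hj h => ?_⟩
  · have h3 := h2 _ (abs_sub_round _)
    by_cases hj : round (q.2.im - c) ∈ s
    · rw [← add_sum_erase _ _ hj]
      have := norm_add_le_of_le ((h1 (round (q.2.im - c))).trans_le (mul_le_of_le_one_right h0.le
        (by rw [Real.exp_le_one_iff, neg_nonpos]; positivity))) h3
      linarith
    · rw [erase_eq_of_notMem hj] at h3; linarith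
  · have h3 := h2 _ (h.trans (by norm_num))
    rw [← add_sum_erase _ _ hj]
    have h4 : 16 / 100 ≤ Real.exp (-(16 * (q.2.im - c - j0) ^ 2)) := by
      have := pow_le_pow_left₀ (by norm_num) (Real.one_sub_le_exp_neg (36 / 100)) 4
      rw [← Real.exp_nat_mul] at this
      refine le_trans (by norm_num) (this.trans (Real.exp_le_exp.2 ?_))
      have := pow_le_pow_left₀ (abs_nonneg _) h 2
      rw [sq_abs] at this
      push_cast; linarith
    have := (h1 j0).ge.trans ((norm_le_add_norm_add _ _).trans (add_le_add le_rfl h3))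
    nlinarith

lemma Hfun : ∃ m : ℝ, 0 < m ∧ ∀ R : ℝ, ∃ H : ℂ × ℂ → ℂ, Differentiable ℂ H ∧
    (∀ q, 0 ≤ d q → ‖H q‖ ≤ 2 * Real.exp (-d q)) ∧ ∀ y, |y| ≤ R → ∃ T, 0 < T ∧ T ≤ 80 ∧
      ∀ q, d q = T → |q.2.im - y| ≤ 1 / 20 → m ≤ ‖H q‖ := by
  refine ⟨(1 / 40) ^ 12 / 4096, by positivity, fun R => ?_⟩
  set s := Icc (-⌈R + 1⌉) ⌈R + 1⌉
  refine ⟨fun q => (1 / 40) ^ 12 * V s 0 q + V s (1 / 2) q ^ 12, by unfold V; fun_prop,
    fun q h => ?_, fun y hy => ?_⟩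
  · have h1 := (V_le s (1 / 2) q).1
    have h2 : ‖V s (1 / 2) q‖ ≤ 1 := h1.trans (by simpa)
    refine (norm_add_le_of_le (norm_mul_le_of_le (r₁ := 1) (by norm_num) (V_le s 0 q).1)
      ((norm_pow _ _).trans_le ((pow_le_of_le_one (norm_nonneg _) h2 (by norm_num)).trans h1))).trans_eq
      (by ring)
  have h1 := abs_le.1 (abs_sub_round (2 * y))
  have h2 : ∀ j : ℤ, |(j : ℝ)| ≤ R + 1 → j ∈ s := fun j h => mem_Icc.2 (abs_le.1 (by
    exact_mod_cast h.trans (Int.le_ceil _)))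
  have h3 : ‖(1 / 40 : ℂ) ^ 12‖ = (1 / 40) ^ 12 := by simp
  rw [abs_le] at hy
  obtain ⟨j, h | h⟩ := Int.even_or_odd' (round (2 * y)) <;> rw [h] at h1 <;> push_cast at h1
  · refine ⟨Real.log 80, by positivity, Real.log_le_self (by norm_num), fun q h4 h5 => ?_⟩
    rw [abs_le] at h5
    have h6 := (V_le s 0 q).2 j (h2 j (abs_le.2 ⟨by linarith, by linarith⟩))
      (abs_le.2 ⟨by linarith, by linarith⟩)
    have h7 := pow_le_pow_left₀ (norm_nonneg _) (V_le s (1 / 2) q).1 12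
    have h8 := norm_le_add_norm_add ((1 / 40) ^ 12 * V s 0 q) (V s (1 / 2) q ^ 12)
    rw [h4, Real.exp_neg, Real.exp_log (by norm_num)] at h6 h7
    rw [norm_mul, h3, norm_pow] at h8
    norm_num at *; linarith
  · refine ⟨Real.log 2, by positivity, (Real.log_le_self (by norm_num)).trans (by norm_num),
      fun q h4 h5 => ?_⟩
    rw [abs_le] at h5
    have h6 := pow_le_pow_left₀ (by positivity) ((V_le s (1 / 2) q).2 j
      (h2 j (abs_le.2 ⟨by linarith, by linarith⟩)) (abs_le.2 ⟨by linarith, by linarith⟩)) 12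
    have h7 := (V_le s 0 q).1
    have h8 := norm_le_add_norm_add' ((1 / 40) ^ 12 * V s 0 q) (V s (1 / 2) q ^ 12)
    rw [h4, Real.exp_neg, Real.exp_log (by norm_num)] at h6 h7
    rw [norm_mul, h3, norm_pow] at h8
    norm_num at *; linarith

end Pool.Agent.H.MP_922b93_an
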