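import Pool.Agent.H.MP_922b93_an.A
namespace Pool.Agent.H.MP_922b93_an
open Filter Topology Complex Metric Finset

abbrev E := EuclideanSpace ℂ (Fin 2)

noncomputable def D (x : E) : ℝ := (1 - ‖x‖ ^ 2) / ‖1 - x 0‖ ^ 2

noncomputable def Q (a : ℝ) (x : E) : ℂ × ℂ :=
  ((8 / a ^ 2 : ℝ) * ((1 + x 0) / (1 - x 0)), x 1 / (1 - x 0) / a)

lemma dQ (a : ℝ) (x : E) : d (Q a x) = 8 / a ^ 2 * D x := by
  simp only [d, Q, D, re_ofReal_mul, EuclideanSpace.norm_sq_eq, Fin.sum_univ_two, norm_div, div_pow,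
    norm_real, Real.norm_eq_abs, sq_abs, div_re, Complex.sq_norm]
  by_cases h : x 0 = 1
  · simp [h]
  have := normSq_eq_zero.not.2 (sub_ne_zero.2 (Ne.symm h))
  simp only [normSq_apply (x 0), add_re, sub_re, add_im, sub_im, one_re, one_im]
  ring

lemma co (x : E) (i : Fin 2) {r : ℝ} (h : ‖x‖ ≤ r) : ‖x i‖ ≤ r := (PiLp.norm_apply_le x i).trans h

lemma D0 {x : E} (h : ‖x‖ ≤ 1) : 0 ≤ D x :=
  div_nonneg (sub_nonneg.2 (pow_le_one₀ (norm_nonneg _) h)) (sq_nonneg _)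

def Bl (k m : ℝ) (f : E → ℂ) : Prop := ∀ ζ : E, ‖ζ‖ = 1 → 1 / k ≤ ‖1 - ζ 0‖ → ∃ s, 0 < s ∧
  s ≤ 1 / k ∧ ∀ x : E, ‖x‖ < 1 → D x = s → ‖ζ - x‖ ≤ k * (1 - ‖x‖) → m ≤ ‖f x‖

def A (ε : ℝ) (g : E → ℂ) : Prop := ContinuousOn g (closedBall 0 1) ∧
  DifferentiableOn ℂ g (ball 0 1) ∧ (∀ x ∈ closedBall 0 1, ‖g x‖ ≤ ε) ∧ g 0 = 0 ∧
  ∀ x, x 0 = 1 → g x = 0

lemma gA {H : ℂ × ℂ → ℂ} (hH : Differentiable ℂ H) (hb : ∀ q, 0 ≤ d q → ‖H q‖ ≤ 2 * Real.exp (-d q))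
    (a : ℝ) {ε : ℝ} (hε : 0 < ε) :
    A ε fun x => (ε / 8 : ℝ) * (1 - x 0) * (H (Q a x) - H (Q a 0)) := by
  have h1 : ∀ x : E, ‖x‖ ≤ 1 → ‖H (Q a x)‖ ≤ 2 := fun x hx => by
    have : 0 ≤ d (Q a x) := dQ a x ▸ mul_nonneg (by positivity) (D0 hx)
    exact (hb _ this).trans (mul_le_of_le_one_right zero_le_two (by simpa))
  have h2 : ∀ x ∈ closedBall (0 : E) 1, ‖(ε / 8 : ℝ) * (1 - x 0) * (H (Q a x) - H (Q a 0))‖ ≤
      ε / 2 * ‖1 - x 0‖ := fun x hx => by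
    have := norm_sub_le_of_le (h1 x (mem_closedBall_zero_iff.1 hx)) (h1 0 (by simp))
    rw [norm_mul, norm_mul, norm_real, Real.norm_of_nonneg (by positivity)]
    nlinarith [mul_nonneg hε.le (norm_nonneg (1 - x 0))]
  have h3 : ∀ x : E, x 0 ≠ 1 → DifferentiableAt ℂ
      (fun x : E => (ε / 8 : ℝ) * (1 - x 0) * (H (Q a x) - H (Q a 0))) x := fun x hx => by
    have := sub_ne_zero.2 hx.symm
    refine .mul (by fun_prop) (.sub_const ((hH _).comp x ?_) _)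
    unfold Q
    simp only [div_eq_mul_inv]
    fun_prop (disch := assumption)
  refine ⟨fun x hx => ?_, fun x hx => (h3 x fun h => by
    simpa [h] using (PiLp.norm_apply_le x 0).trans_lt (mem_ball_zero_iff.1 hx)).differentiableWithinAt,
    fun x hx => (h2 x hx).trans ?_, by simp, fun x hx => by simp [hx]⟩
  · by_cases h : x 0 = 1
    · have : Tendsto (fun w : E => ε / 2 * ‖1 - w 0‖) (𝓝 x) (𝓝 0) :=
        Continuous.tendsto' (by fun_prop) _ _ (by simp [h])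
      simpa [ContinuousWithinAt, h] using squeeze_zero_norm' (eventually_nhdsWithin_of_forall h2)
        (this.mono_left nhdsWithin_le_nhds)
    · exact (h3 x h).continuousAt.continuousWithinAt
  · have := norm_sub_le_of_le norm_one.le (co x 0 (mem_closedBall_zero_iff.1 hx))
    nlinarith

lemma near {k ρ s a : ℝ} (hk : 1 ≤ k) (ha : 0 < a) (h1 : 4 * k * s ≤ ρ) (h2 : 120 * k ^ 2 * ρ ≤ a)
    (h3 : a ≤ 1) {ζ x : E} (z1 : ‖ζ‖ = 1) (z2 : 1 / k ≤ ‖1 - ζ 0‖) (x1 : ‖x‖ < 1) (x2 : D x = s)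
    (x3 : ‖ζ - x‖ ≤ k * (1 - ‖x‖)) :
    ‖ζ - x‖ ≤ ρ ∧ 1 / (2 * k) ≤ ‖1 - x 0‖ ∧ |(Q a x).2.im - (Q a ζ).2.im| ≤ 1 / 20 := by
  have e0 : 0 < ‖1 - x 0‖ := norm_pos_iff.2 (sub_ne_zero.2 fun h => by
    simpa [← h] using (PiLp.norm_apply_le x 0).trans_lt x1)
  have e1 := pow_le_pow_left₀ e0.le (norm_sub_le_of_le norm_one.le (co x 0 x1.le)) 2
  have s0 := x2 ▸ D0 x1.le
  rw [D, div_eq_iff (by positivity)] at x2
  have e2 : 1 - ‖x‖ ≤ 4 * s := by nlinarith [norm_nonneg x]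
  have e3 : ‖ζ - x‖ ≤ ρ := by nlinarith
  have e4 := co _ 0 e3
  have e5 := co _ 1 e3
  have r0 := (norm_nonneg _).trans e3
  have e6 : ρ ≤ 1 / (2 * k) := by rw [le_div_iff₀ (by positivity)]; nlinarith
  have e7 : 1 / (2 * k) ≤ ‖1 - x 0‖ := by
    have := norm_sub_le (1 - x 0) ((ζ - x) 0)
    rw [PiLp.sub_apply, sub_sub_sub_cancel_right] at this
    have e : 1 / k = 1 / (2 * k) + 1 / (2 * k) := by field_simp; ring
    rw [PiLp.sub_apply] at e4; linarith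
  have e8 : 0 < ‖1 - ζ 0‖ := lt_of_lt_of_le (by positivity) z2
  refine ⟨e3, e7, ?_⟩
  have e9 := norm_pos_iff.1 e0
  have e10 := norm_pos_iff.1 e8
  rw [← sub_im]
  refine (abs_im_le_norm _).trans ?_
  rw [show (Q a x).2 - (Q a ζ).2 = -((ζ - x) 1 * (1 - ζ 0) + ζ 1 * (ζ - x) 0) /
    ((1 - x 0) * (1 - ζ 0) * a) by simp only [Q, PiLp.sub_apply]; field_simp; ring,
    norm_div, norm_neg, norm_mul, norm_mul, norm_real, Real.norm_of_nonneg ha.le,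
    div_le_iff₀ (by positivity)]
  refine (norm_add_le_of_le (norm_mul_le_of_le e5 (norm_sub_le_of_le norm_one.le (co ζ 0 z1.le)))
    (norm_mul_le_of_le (co ζ 1 z1.le) e4)).trans (le_trans ?_ (mul_le_mul_of_nonneg_left
      (mul_le_mul (mul_le_mul e7 z2 (by positivity) e0.le) h2 (by positivity) (by positivity))
      (by norm_num)))
  field_simp; linarith

lemma step {f : E → ℂ} (hf : ContinuousOn f (closedBall 0 1)) {ε k : ℝ} (hε : 0 < ε) (hk : 1 ≤ k) :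
    ∃ g m, 0 < m ∧ A ε g ∧ Bl k m (f + g) := by
  obtain ⟨m, m0, Hf⟩ := Hfun
  have b0 : 0 < ε * m / (64 * k) := by positivity
  obtain ⟨δ, δ0, hδ⟩ := Metric.uniformContinuousOn_iff.1
    ((isCompact_closedBall 0 1).uniformContinuousOn_of_continuous hf) _ (show 0 < ε * m / (64 * k) / 4
      by positivity)
  have T0 : 0 < 256 * k / m := by positivity
  have hT : ∀ t, 256 * k / m ≤ t → Real.exp (-t) ≤ m / (256 * k) := fun t ht => by
    rw [Real.exp_neg, ← inv_div (256 * k)]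
    exact inv_anti₀ T0 (by linarith [Real.add_one_le_exp t])
  generalize 256 * k / m = T at *
  have t1 : ∀ c : ℝ, ∀ e > 0, ∀ᶠ a in 𝓝[>] (0 : ℝ), c * a < e := fun c e he =>
    ((Continuous.tendsto' (f := fun a : ℝ => c * a) (by fun_prop) 0 0 (by simp)).eventually
      (gt_mem_nhds he)).filter_mono nhdsWithin_le_nhds
  obtain ⟨a, ⟨⟨⟨a1, a2⟩, a3⟩, a4⟩, a0⟩ := (((((t1 1 1 one_pos).and (t1 T 1 one_pos)).and
    (t1 (k * (T + 80)) δ δ0)).and (t1 (120 * k ^ 2 * (k * (T + 80))) 1 one_pos)).and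
      (self_mem_nhdsWithin (s := Set.Ioi 0))).exists
  replace a0 : 0 < a := a0
  rw [one_mul] at a1
  obtain ⟨H, H1, H2, H3⟩ := Hf (k / a)
  refine ⟨_, _, half_pos b0, gA H1 H2 a hε, fun ζ z1 z2 => ?_⟩
  have q0 : ‖H (Q a 0)‖ ≤ 2 * (m / (256 * k)) := by
    have : T ≤ d (Q a 0) := by
      rw [dQ, D]; simp; rw [le_div_iff₀ (by positivity)]; nlinarith
    exact (H2 _ (by linarith)).trans (by linarith [hT _ this])
  have q1 : ∀ t, 0 < t → t ≤ T + 80 → (∀ x : E, d (Q a x) = t → ‖x‖ < 1 → ‖f ζ - f x‖ < ε * m / (64 * k) / 4 →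
      1 / (2 * k) ≤ ‖1 - x 0‖ → |(Q a x).2.im - (Q a ζ).2.im| ≤ 1 / 20 → ε * m / (64 * k) / 2 ≤
      ‖f x + (ε / 8 : ℝ) * (1 - x 0) * (H (Q a x) - H (Q a 0))‖) → ∃ s, 0 < s ∧ s ≤ 1 / k ∧ ∀ x : E,
      ‖x‖ < 1 → D x = s → ‖ζ - x‖ ≤ k * (1 - ‖x‖) → ε * m / (64 * k) / 2 ≤
      ‖f x + (ε / 8 : ℝ) * (1 - x 0) * (H (Q a x) - H (Q a 0))‖ := fun t t0 t1 h => by
    have e1 : k * t * a ≤ k * (T + 80) * a := by gcongr
    have e0 : 0 < k * t * a := by positivity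
    refine ⟨t * a ^ 2 / 8, by positivity, ?_, fun x x1 x2 x3 => ?_⟩
    · rw [le_div_iff₀ (by positivity)]; nlinarith [one_le_pow₀ hk (n := 2)]
    obtain ⟨e2, e3, e4⟩ := near (ρ := k * (T + 80) * a * a) hk a0 (by nlinarith) (by nlinarith)
      a1.le z1 z2 x1 x2 x3
    exact h x (by rw [dQ, x2]; field_simp) x1 (dist_eq_norm (f ζ) _ ▸ hδ ζ (by simp [z1]) x
      (by simp [x1.le]) (by rw [dist_eq_norm]; nlinarith)) e3 e4
  have q2 : ‖((ε / 8 : ℝ) : ℂ)‖ = ε / 8 := by rw [norm_real, Real.norm_of_nonneg (by positivity)]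
  by_cases hb : ε * m / (64 * k) ≤ ‖f ζ‖
  · refine q1 T T0 (by linarith) fun x x0 x1 x2 _ _ => ?_
    have e1 := H2 _ (x0 ▸ T0.le)
    rw [x0] at e1
    have e2 := norm_mul_le_of_le (norm_mul_le_of_le q2.le (norm_sub_le_of_le norm_one.le
      (co x 0 x1.le))) (norm_sub_le_of_le (e1.trans (mul_le_mul_of_nonneg_left (hT T le_rfl)
        zero_le_two)) q0)
    have e3 := norm_sub_norm_le (f ζ) (f x)
    have e4 := norm_le_add_norm_add (f x) ((ε / 8 : ℝ) * (1 - x 0) * (H (Q a x) - H (Q a 0)))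
    have e5 : ε / 8 * (1 + 1) * (2 * (m / (256 * k)) + 2 * (m / (256 * k))) = ε * m / (64 * k) / 4 := by
      field_simp; norm_num
    linarith
  obtain ⟨t, t0, t1, ht⟩ := H3 (Q a ζ).2.im ((abs_im_le_norm _).trans (by
    rw [Q, norm_div, norm_div, norm_real, Real.norm_of_nonneg a0.le]
    gcongr
    rw [div_le_iff₀ (lt_of_lt_of_le (by positivity) z2)]
    rw [div_le_iff₀' (by positivity)] at z2
    exact (co ζ 1 z1.le).trans z2))
  refine q1 t t0 (by linarith) fun x x0 x1 x2 x3 x4 => ?_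
  have e1 := norm_sub_norm_le (H (Q a x)) (H (Q a 0))
  have e2 : m / (256 * k) ≤ m / 4 := by gcongr; linarith
  have e3 := mul_le_mul (mul_le_mul_of_nonneg_left x3 (show 0 ≤ ε / 8 by positivity))
    (show m / 2 ≤ ‖H (Q a x) - H (Q a 0)‖ by linarith [ht _ x0 x4]) (by positivity) (by positivity)
  have e4 := norm_le_add_norm_add' (f x) ((ε / 8 : ℝ) * (1 - x 0) * (H (Q a x) - H (Q a 0)))
  have e5 := norm_sub_norm_le (f x) (f ζ)
  have e6 : ε / 8 * (1 / (2 * k)) * (m / 2) = 2 * (ε * m / (64 * k)) := by field_simp; norm_num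
  rw [norm_mul, norm_mul, q2] at e4
  rw [norm_sub_rev] at e5
  linarith

theorem main : ∃ f : E → ℂ, ContinuousOn f (closedBall 0 1) ∧ DifferentiableOn ℂ f (ball 0 1) ∧
    f 0 = 0 ∧ (∀ x, x 0 = 1 → f x = 1) ∧ ∀ k : ℕ, ∃ m > 0, Bl (k + 1) m f := by
  have : ∀ (k : ℕ) (s : {q : (E → ℂ) × ℝ // ContinuousOn q.1 (closedBall 0 1) ∧ 0 < q.2}),
      ∃ (t : {q : (E → ℂ) × ℝ // ContinuousOn q.1 (closedBall 0 1) ∧ 0 < q.2}) (g : E → ℂ),
      A s.1.2 g ∧ t.1.1 = s.1.1 + g ∧ t.1.2 ≤ s.1.2 / 2 ∧ Bl (k + 1) (3 * t.1.2) t.1.1 :=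
    fun k ⟨⟨f, ε⟩, h1, h2⟩ => by
      obtain ⟨g, m, m0, h3, h4⟩ := step h1 h2 (k := k + 1) (by simp)
      exact ⟨⟨⟨f + g, min (ε / 2) (m / 3)⟩, h1.add h3.1, by positivity⟩, g, h3, rfl, min_le_left _ _,
        fun ζ a b => (h4 ζ a b).imp fun s hs => ⟨hs.1, hs.2.1, fun x c d e => le_trans
          (by linarith [min_le_right (ε / 2) (m / 3)]) (hs.2.2 x c d e)⟩⟩
  choose t G H using this
  let s : ℕ → _ := Nat.rec ⟨⟨fun x => x 0, 1⟩, by fun_prop, one_pos⟩ t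
  have h1 := fun k => H k (s k)
  set g := fun k => G k (s k)
  have h2 : ∀ k j, (s (j + k)).1.2 ≤ (s k).1.2 * (1 / 2) ^ j := fun k j => by
    induction j with
    | zero => simp
    | succ j ih =>
      rw [Nat.add_right_comm, pow_succ]
      exact (h1 _).2.2.1.trans (by linarith)
  have h3 := fun k => hasSum_geometric_two.mul_left (s k).1.2
  have h4 : ∀ k j, ∀ x ∈ closedBall 0 1, ‖g (j + k) x‖ ≤ (s k).1.2 * (1 / 2) ^ j := fun k j x hx =>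
    ((h1 _).1.2.2.1 x hx).trans (h2 k j)
  have h5 : ∀ k x, (s k).1.1 x = x 0 + ∑ j ∈ range k, g j x := fun k x => by
    induction k with
    | zero => simp [s]
    | succ k ih => rw [sum_range_succ, ← add_assoc, ← ih]; exact congrFun (h1 k).2.1 x
  refine ⟨fun x => x 0 + ∑' j, g j x, .add (by fun_prop) (continuousOn_tsum (fun j => (h1 j).1.1)
    (h3 0).summable (h4 0)), .add (by fun_prop) (MP_0c4bbf_an.diff_tsum (h3 0).summable
      (fun j => (h1 j).1.2.1) fun j x hx => h4 0 j x (ball_subset_closedBall hx)),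
    by simp [g, fun j => (h1 j).1.2.2.2.1], fun x hx => by simp [g, fun j => (h1 j).1.2.2.2.2 x hx, hx],
    fun k => ⟨_, (s (k + 1)).2.2, fun ζ a b => ((h1 k).2.2.2 ζ a b).imp fun r hr =>
      ⟨hr.1, hr.2.1, fun x c d e => ?_⟩⟩⟩
  have e0 := mem_closedBall_zero_iff.2 c.le
  have e1 : 3 * (s (k + 1)).1.2 ≤ ‖(s (k + 1)).1.1 x‖ := hr.2.2 x c d e
  have e2 := tsum_of_norm_bounded (h3 (k + 1)) fun j => h4 (k + 1) j x e0
  have e3 := norm_le_add_norm_add ((s (k + 1)).1.1 x) (∑' j, g (j + (k + 1)) x)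
  rw [h5 (k + 1) x, add_assoc, (Summable.of_norm_bounded (f := fun j => g j x) (h3 0).summable
    fun j => h4 0 j x e0).sum_add_tsum_nat_add, ← h5 (k + 1) x] at e3
  linarith

end Pool.Agent.H.MP_922b93_an
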